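import Mathlib

set_option autoImplicit false

namespace Pool.Agent.Results.MP_17359d_gt.AlephOneCovers

open Set Cardinal

universe u v

/-! ## Definitions used in the statement -/

/-- `U` is an open cover of `X`. -/
def IsOpenCov {X : Type u} [TopologicalSpace X] (U : Set (Set X)) : Prop :=
  (∀ s ∈ U, IsOpen s) ∧ ⋃₀ U = Set.univ

/-- `V` is a sequence of open covers refining `U` such that each point is in at most countably
many members of some `V n`. -/
def IsDeltaThetaSequence {X : Type u} [TopologicalSpace X] (V : ℕ → Set (Set X))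
    (U : Set (Set X)) : Prop :=
  (∀ n, IsOpenCov (V n) ∧ ∀ s ∈ V n, ∃ t ∈ U, s ⊆ t) ∧
    ∀ x, ∃ n, {s ∈ V n | x ∈ s}.Countable

/-- Delta-theta-refinable (submetalindelöf) spaces. -/
def DeltaThetaRefinable (X : Type u) [TopologicalSpace X] : Prop :=
  ∀ U : Set (Set X), IsOpenCov U → ∃ V : ℕ → Set (Set X), IsDeltaThetaSequence V U

/-! ## Proof -/

theorem count_Iio (b : (ℵ₁ : Cardinal.{v}).ord.ToType) : (Iio b).Countable := by
  rw [← Cardinal.le_aleph0_iff_set_countable]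
  exact Order.lt_succ_iff.1
    ((Cardinal.mk_Iio_toType_ord_lt b).trans_eq Cardinal.succ_aleph0.symm)

/-- countable subsets of `ω₁` are bounded -/
theorem bounded (S : Set (ℵ₁ : Cardinal.{v}).ord.ToType) (hS : S.Countable) :
    ∃ b, ∀ a ∈ S, a < b := by
  by_contra hcon
  push Not at hcon
  have hcount : ∀ a : (ℵ₁ : Cardinal.{v}).ord.ToType, (Iic a).Countable := by
    intro a
    rw [← Iio_insert]
    exact (count_Iio a).insert a
  have h2 : (Set.univ : Set (ℵ₁ : Cardinal.{v}).ord.ToType) ⊆ ⋃ a ∈ S, Iic a := by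
    intro b _
    obtain ⟨a, ha, hab⟩ := hcon b
    exact mem_biUnion ha hab
  have h3 : (Set.univ : Set (ℵ₁ : Cardinal.{v}).ord.ToType).Countable :=
    (hS.biUnion fun a _ => hcount a).mono h2
  rw [← Cardinal.le_aleph0_iff_set_countable, Cardinal.mk_univ, Cardinal.mk_ord_toType] at h3
  exact absurd h3 (not_le.2 Cardinal.aleph0_lt_aleph_one)

variable {X : Type u} {Y : Type v} [TopologicalSpace X] [TopologicalSpace Y]

theorem step (f : X → Y) (hc : IsClosedMap f)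
    (U : Set (Set Y)) (hU : IsOpenCov U)
    (e : U ↪ (ℵ₁ : Cardinal.{v}).ord.ToType)
    (V : Set (Set X)) (hV : IsOpenCov V) (hVr : ∀ s ∈ V, ∃ t ∈ (fun s => f ⁻¹' s) '' U, s ⊆ t) :
    ∃ Z : Set (Set Y), (IsOpenCov Z ∧ ∀ s ∈ Z, ∃ t ∈ U, s ⊆ t) ∧
      ∀ x, {s ∈ V | x ∈ s}.Countable → {s ∈ Z | f x ∈ s}.Countable := by
  classical
  obtain ⟨hVo, hVc⟩ := hV
  have hidx : ∀ s : V, ∃ t : U, (s : Set X) ⊆ f ⁻¹' (t : Set Y) := by
    rintro ⟨s, hs⟩
    obtain ⟨_, ⟨t, ht, rfl⟩, h⟩ := hVr s hs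
    exact ⟨⟨t, ht⟩, h⟩
  choose ix hix using hidx
  let W : U → Set X := fun t => ⋃ s : V, ⋃ _ : ix s = t, (s : Set X)
  have hWo : ∀ t, IsOpen (W t) := fun t => isOpen_iUnion fun s => isOpen_iUnion fun _ => hVo s s.2
  have hWf : ∀ t, W t ⊆ f ⁻¹' (t : Set Y) := by
    intro t x hx
    simp only [W, mem_iUnion] at hx
    obtain ⟨s, rfl, hx⟩ := hx
    exact hix s hx
  have hWne : ∀ x, ∃ t, x ∈ W t := by
    intro x
    have : x ∈ ⋃₀ V := by rw [hVc]; trivial
    obtain ⟨s, hs, hx⟩ := this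
    exact ⟨ix ⟨s, hs⟩, mem_iUnion.2 ⟨⟨s, hs⟩, mem_iUnion.2 ⟨rfl, hx⟩⟩⟩
  have hWc : ∀ x, {s ∈ V | x ∈ s}.Countable → {t | x ∈ W t}.Countable := by
    intro x hVp
    have h1 : ({s : V | x ∈ (s : Set X)}).Countable := by
      have := hVp.preimage (f := fun s : V => (s : Set X)) Subtype.val_injective
      refine this.mono fun s hs => ?_
      exact ⟨s.2, hs⟩
    refine (h1.image ix).mono ?_
    intro t ht
    simp only [W, mem_ofPred_eq, mem_iUnion] at ht
    obtain ⟨s, h, hx⟩ := ht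
    exact ⟨s, hx, h⟩
  let C : (ℵ₁ : Cardinal.{v}).ord.ToType → Set X := fun a => {x | ∀ t, x ∈ W t → e t < a}
  have hCc : ∀ a, IsClosed (C a) := by
    intro a
    have : C a = (⋃ t : U, ⋃ _ : ¬ e t < a, W t)ᶜ := by
      ext x
      simp only [C, mem_ofPred_eq, mem_compl_iff, mem_iUnion, not_exists]
      constructor
      · intro h t ht hx
        exact ht (h t hx)
      · intro h t hx
        by_contra ht
        exact h t ht hx
    rw [this, isClosed_compl_iff]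
    exact isOpen_iUnion fun t => isOpen_iUnion fun _ => hWo t
  have hCm : ∀ a b, a ≤ b → C a ⊆ C b := fun a b hab x hx t ht => (hx t ht).trans_le hab
  refine ⟨range fun t : U => (t : Set Y) \ f '' C (e t), ⟨⟨?_, ?_⟩, ?_⟩, ?_⟩
  · rintro _ ⟨t, rfl⟩
    exact (hU.1 t t.2).sdiff (hc _ (hCc _))
  · rw [eq_univ_iff_forall]
    intro y
    by_cases hex : ∃ a, y ∈ f '' C a
    · obtain ⟨a, ha, hmin⟩ :=
        WellFounded.has_min (wellFounded_lt (α := (ℵ₁ : Cardinal.{v}).ord.ToType))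
        {a | y ∈ f '' C a} hex
      obtain ⟨x, hx, rfl⟩ := ha
      obtain ⟨t, ht⟩ := hWne x
      refine ⟨_, ⟨t, rfl⟩, hWf t ht, fun h => ?_⟩
      exact hmin _ h (hx t ht)
    · have hy : y ∈ ⋃₀ U := by rw [hU.2]; trivial
      obtain ⟨t, ht, hyt⟩ := hy
      exact ⟨_, ⟨⟨t, ht⟩, rfl⟩, hyt, fun h => hex ⟨_, h⟩⟩
  · rintro _ ⟨t, rfl⟩
    exact ⟨t, t.2, sdiff_subset⟩
  · intro x hx
    obtain ⟨b, hb⟩ := bounded (e '' {t | x ∈ W t}) ((hWc x hx).image e)
    have hxb : f x ∈ f '' C b := ⟨x, fun t ht => hb _ ⟨t, ht, rfl⟩, rfl⟩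
    have h1 : {t : U | e t < b}.Countable :=
      (count_Iio b).preimage (f := e) e.injective
    refine (h1.image fun t : U => (t : Set Y) \ f '' C (e t)).mono ?_
    rintro _ ⟨⟨t, rfl⟩, hy⟩
    refine ⟨t, ?_, rfl⟩
    by_contra h
    exact hy.2 (image_mono (hCm b (e t) (not_lt.1 h)) hxb)

theorem main (hX : DeltaThetaRefinable X) (f : X → Y) (hf : Continuous f) (hc : IsClosedMap f)
    (hs : Function.Surjective f) (U : Set (Set Y)) (hU : IsOpenCov U) (hcard : #U ≤ ℵ₁) :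
    ∃ V : ℕ → Set (Set Y), IsDeltaThetaSequence V U := by
  have hemb : #U ≤ #((ℵ₁ : Cardinal.{v}).ord.ToType) := by rwa [Cardinal.mk_ord_toType]
  obtain ⟨e⟩ := hemb
  obtain ⟨V, hV1, hV2⟩ := hX ((fun s => f ⁻¹' s) '' U) ⟨by
    rintro _ ⟨s, hs, rfl⟩
    exact (hU.1 s hs).preimage hf, by
    rw [eq_univ_iff_forall]
    intro x
    have : f x ∈ ⋃₀ U := by rw [hU.2]; trivial
    obtain ⟨s, hs, hx⟩ := this
    exact ⟨_, ⟨s, hs, rfl⟩, hx⟩⟩
  choose Z hZ1 hZ2 using fun n => step f hc U hU e (V n) (hV1 n).1 (hV1 n).2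
  refine ⟨Z, hZ1, ?_⟩
  intro y
  obtain ⟨x, rfl⟩ := hs y
  obtain ⟨n, hn⟩ := hV2 x
  exact ⟨n, hZ2 n x hn⟩

/-- If `X` is delta-theta-refinable and `f : X → Y` is a closed mapping (a continuous surjection
that sends closed sets to closed sets), then every open cover of `Y` having at most `ℵ₁` members
has a delta-theta-sequence of open refinements. In particular `Y` is delta-theta-refinable provided
that every open cover of `Y` has a subcover with at most `ℵ₁` members. -/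
theorem result {X : Type u} {Y : Type v} [TopologicalSpace X] [TopologicalSpace Y]
    (hX : DeltaThetaRefinable X) (f : X → Y) (hf : Continuous f) (hc : IsClosedMap f)
    (hs : Function.Surjective f) :
    (∀ U : Set (Set Y), IsOpenCov U → #U ≤ ℵ₁ →
      ∃ V : ℕ → Set (Set Y), IsDeltaThetaSequence V U) ∧
    ((∀ U : Set (Set Y), IsOpenCov U → ∃ U' ⊆ U, IsOpenCov U' ∧ #U' ≤ ℵ₁) →
      DeltaThetaRefinable Y) := by
  refine ⟨fun U hU hcard => main hX f hf hc hs U hU hcard, fun h U hU => ?_⟩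
  obtain ⟨U', hsub, hU', hcard⟩ := h U hU
  obtain ⟨V, hV1, hV2⟩ := main hX f hf hc hs U' hU' hcard
  refine ⟨V, fun n => ⟨(hV1 n).1, fun s hs => ?_⟩, hV2⟩
  obtain ⟨t, ht, hst⟩ := (hV1 n).2 s hs
  exact ⟨t, hsub ht, hst⟩

end Pool.Agent.Results.MP_17359d_gt.AlephOneCovers
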